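import Pool.Agent.E8helper15.FT.Semi2
import Pool.Agent.E8helper15.FT.Lh
import Pool.Agent.E8helper71.FT.HT
import Pool.Agent.E8helper91.FT.Sup
import Pool.Agent.E8helper91.FT.Loc
import Pool.Agent.E8helper54.FT.Iter
import Pool.Agent.E8helper3.FT.Jv
import Pool.Agent.E8helper3.FT.Iter2
import Pool.Agent.E8helper56.FT.Iter3
import Pool.Agent.E8helper52.FT.Rb
import Pool.Agent.E8helper25.FT.Up
import Pool.Agent.E8helper85.FT.Lb
import Pool.Agent.E8helper9.FT.Per
import Pool.Agent.E8helper40.FT.Cnt
import Pool.Agent.E8helper14.FT.BAD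
import Pool.Agent.E8helper70.FT.TOR
import Pool.Agent.E8helper64.FT.BADP
import Pool.Agent.TH876.FH.Hj
import Pool.Agent.TH876.FH.Ana

/-!
# Frey's height conjecture for elliptic curves over `ℚ` is decided by thin families of semistable curves
with torsion `ℤ/2 × ℤ/8` and bad reduction at prescribed primes

Let `k ≥ 0`, `m ≥ 1`, and let `Fam k m` be the set of the curves `y² = x (x + u⁴) (x + v⁴)`, `u` and
`v` coprime integers such that `u / v = 2 t / (1 - t²)`, `t = s ^ m`, where `s` is a value of the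
`k`-th iterate of `x ↦ 4 x (1 - x)` on `ℚ`. The inequality `h_F(E) ≤ (1 / 2 + ε) log N_E + c` holds
for all elliptic curves over `ℚ` if and only if it holds for the curves of `Fam k m`. Here `h_F` is the
stable Faltings height (by Silverman's formula, up to an additive constant), and `N_E` is the
conductor or any other function with the property `IsCond` (at least the product of the bad primes,
with equality for semistable curves). The curves of `Fam k m` are semistable, have rational points
which generate a group `ℤ/2 × ℤ/8` and bad reduction at all odd primes `p` such that `p - 1` divides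
`m`, and at most `C X ^ (1 / (4 m 2 ^ k))` of them have `u⁴ + v⁴ ≤ X`.

The proof: the three maps `x ↦ 4 x (1 - x)`, `x ↦ x ^ m`, `x ↦ (2 x / (1 - x²)) ^ 4` are unramified
outside `0, 1, ∞`, map these three points to themselves, and have `d - 1` further points above them,
`d` the degree; so Frey's inequality for the family gives the abc inequality for all Legendre
parameters, and this gives Frey's inequality for all elliptic curves over `ℚ`.

The pieces of the proof are by helper71, helper91, helper54, helper3, helper56, helper52, helper25,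
helper85, helper9, helper40, helper14, helper70, helper64 and helper15.
-/

set_option autoImplicit false

namespace Pool.Agent.Results.MP_c59389_nt.TorsionFamilyDecidesH15

open NumberField IsDedekindDomain
open Pool.Agent.TH876.FH (GoodAt)
open Pool.Agent.E8helper15.FT (IsCond FreyN Fam BigTorsion SemistableAt)

theorem result (k m : ℕ) (hm : 1 ≤ m) :
    (∀ N : WeierstrassCurve ℚ → ℝ, IsCond N → (FreyN N Set.univ ↔ FreyN N (Fam k m))) ∧
    (∀ E ∈ Fam k m, E.Δ ≠ 0 → (∀ w : HeightOneSpectrum (𝓞 ℚ), SemistableAt w E) ∧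
      BigTorsion E ∧ ∀ p : ℕ, p.Prime → p ≠ 2 → p - 1 ∣ m →
        ∀ w : HeightOneSpectrum (𝓞 ℚ), w.valuation ℚ (p : ℚ) < 1 → ¬ GoodAt w E) ∧
    ∃ C : ℝ, ∀ X : ℝ, 1 ≤ X → {E ∈ Fam k m | (E.a₂ : ℝ) ≤ X}.Finite ∧
      ({E ∈ Fam k m | (E.a₂ : ℝ) ≤ X}.ncard : ℝ) ≤ C * X ^ ((1 : ℝ) / (4 * m * 2 ^ k)) := by
  have hj := Pool.Agent.TH876.FH.hj Pool.Agent.TH876.FH.ana
  have hHT := Pool.Agent.E8helper71.FT.t_HT
  have hSUP := Pool.Agent.E8helper91.FT.t_SUP
  have hBAD := Pool.Agent.E8helper14.FT.t_BAD
  have hUP := Pool.Agent.E8helper25.FT.t_UP hj hHT Pool.Agent.E8helper3.FT.t_JV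
    (Pool.Agent.E8helper52.FT.t_RB hHT hSUP) hBAD
  refine ⟨fun N hN => ?_, fun E hE hΔ => ?_, ?_⟩
  · exact Pool.Agent.E8helper15.FT.main4 hj (Pool.Agent.E8helper15.FT.t_LH hHT) hSUP hBAD
      (Pool.Agent.E8helper85.FT.t_LB hSUP) Pool.Agent.E8helper9.FT.t_PER
      (Pool.Agent.E8helper54.FT.t_ITER hHT hSUP) (Pool.Agent.E8helper3.FT.t_ITER2 hHT hSUP)
      (Pool.Agent.E8helper56.FT.t_ITER3 hHT hSUP) hUP N hN k m hm
  · exact ⟨Pool.Agent.E8helper15.FT.fam_semi k m E hE,
      Pool.Agent.E8helper15.FT.fam_tor Pool.Agent.E8helper70.FT.t_TOR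
        Pool.Agent.E8helper91.FT.t_LOC Pool.Agent.E8helper64.FT.t_BADP k m hm E hE hΔ⟩
  · exact Pool.Agent.E8helper15.FT.fam_count Pool.Agent.E8helper40.FT.t_CNT
      Pool.Agent.E8helper3.FT.height_big k m hm

end Pool.Agent.Results.MP_c59389_nt.TorsionFamilyDecidesH15
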