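import Pool.Agent.R559.NP.Near
import Pool.Agent.Results.MP_c59389_nt.AllEllipticCurves

/-!
# Frey's inequality for the Weil restrictions of elliptic curves whose modular invariants are near a
given point

Frey's inequality says that `h_F(A) ≤ (n / 2 + ε) log N_A + c` for all abelian varieties `A` over `ℚ`
of dimension `n`. We consider the Weil restrictions `A = Res_{L/ℚ} E`, where `L` runs over ALL number
fields of degree `n` and `E` over ALL elliptic curves over `L`, whose modular invariants are near a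
given point `ξ`: let `φ` be any map from the pairs `(L, j)` to a metric space `X`, for example the
modular invariant `j` as a complex or as a `p`-adic number. Here near means that the distance of `ξ` and
`φ (L, j)` is at most `M exp (-σ h_F(A))`, where `σ > 0` may be as small as one likes.

For every slope `κ > 0` the points `ξ` for which infinitely many pairs `(L, j)` near `ξ` violate
`h_F(A) ≤ κ log N_A + c` are a set of Hausdorff dimension at most `a n / (κ σ)`, where `a 1 = 5 / 2`.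
For all `ξ` outside a set of dimension zero there is for all `n` and `σ` a slope `κ` such that the
inequality holds with all constants `c` for all but finitely many of the invariants near `ξ`.

Proof. A covering argument and the count of the violators in the starting file `AllEllipticCurves`.
-/

set_option autoImplicit false

namespace Pool.Agent.Results.MP_c59389_nt.ViolatorsNearAPointH38

open NumberField Filter Topology MeasureTheory
open Pool.Agent.Results.MP_c59389_nt.AllEllipticCurves (faltings IsPeriod badNorm Violators expo)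

/-- the pairs `(L, j)`, where `L` is a subfield of the algebraic closure of `ℚ` -/
abbrev Pairs : Type := IntermediateField ℚ (AlgebraicClosure ℚ) × AlgebraicClosure ℚ

/-- The pairs `(L, j)` where `L` is a number field of degree `n` and `j ∈ L` is the modular invariant
of an elliptic curve `E` over `L` such that `A = Res_{L/ℚ} E`, of stable Faltings height
`h_F(A) = n h_F(E)`, satisfies `h_F(A) > κ log N + c`, where `N = |D_L| ^ 2 * badNorm E` is a divisor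
of the conductor of `A`, and `φ (L, j)` has distance at most `M exp (-σ h_F(A))` from `ξ`. -/
def Near {X : Type} [MetricSpace X] (φ : Pairs → X) (ξ : X) (n : ℕ) (κ c σ M : ℝ) : Set Pairs :=
  {p | ∃ (_ : NumberField p.1) (E : WeierstrassCurve p.1) (τ : InfinitePlace p.1 → UpperHalfPlane),
    Module.finrank ℚ p.1 = n ∧ E.Δ ≠ 0 ∧
    ((E.c₄ ^ 3 / E.Δ : p.1) : AlgebraicClosure ℚ) = p.2 ∧
    IsPeriod (E.c₄ ^ 3 / E.Δ) τ ∧
    κ * Real.log (badNorm E * |(discr p.1 : ℝ)| ^ 2) + c <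
      (n : ℝ) * faltings (E.c₄ ^ 3 / E.Δ) τ ∧
    dist (φ p) ξ ≤ M * Real.exp (-(σ * ((n : ℝ) * faltings (E.c₄ ^ 3 / E.Δ) τ)))}

/-! ### Families of points -/

section Families

variable {K X : Type} [MetricSpace X]

/-- the members of `⋃ V B` which are near `ξ` -/
def Close (V : ℝ → Set K) (φ : K → X) (ξ : X) (σ M : ℝ) : Set K :=
  {p | ∃ h : ℝ, p ∈ V (Real.exp h) ∧ dist (φ p) ξ ≤ M * Real.exp (-(σ * h))}

/-- the number of members -/
def Counted (V : ℝ → Set K) (s : ℝ) : Prop := ∀ δ : ℝ, 0 < δ → ∃ M : ℝ, ∀ B : ℝ, 1 ≤ B →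
  (V B).Finite ∧ ((V B).ncard : ℝ) ≤ M * B ^ (s + δ)

/-- the members with index at least one, and their heights -/
theorem model (V : ℝ → Set K) (hmono : ∀ B B' : ℝ, B ≤ B' → V B ⊆ V B') {s : ℝ}
    (hc : Counted V s) :
    ∃ (T : Type) (_ : Countable T) (ι : T → K) (H : T → ℝ), (∀ t, 1 ≤ H t) ∧
      (∀ ε : ℝ, 0 < ε → ∃ C : ℝ, ∀ B : ℝ, 1 ≤ B → {t : T | True ∧ H t ≤ B}.Finite ∧
        (({t : T | True ∧ H t ≤ B}.ncard : ℕ) : ℝ) ≤ C * B ^ (s + ε)) ∧
      ∀ h : ℝ, 0 ≤ h → ∀ p ∈ V (Real.exp h), ∃ t : T, ι t = p ∧ H t ≤ 2 * Real.exp h := by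
  classical
  have hfin : ∀ m : ℕ, (V (m : ℝ)).Finite := by
    intro m
    obtain ⟨M, hM⟩ := hc 1 one_pos
    exact (hM (max (m : ℝ) 1) (le_max_right _ _)).1.subset (hmono _ _ (le_max_left _ _))
  have hcount : {p : K | ∃ m : ℕ, 1 ≤ m ∧ p ∈ V (m : ℝ)}.Countable := by
    refine (Set.countable_iUnion fun m : ℕ => (hfin m).countable).mono ?_
    rintro p ⟨m, -, hm⟩
    exact Set.mem_iUnion.2 ⟨m, hm⟩
  refine ⟨{p : K // ∃ m : ℕ, 1 ≤ m ∧ p ∈ V (m : ℝ)}, hcount.to_subtype, Subtype.val,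
    fun t => (Nat.find t.2 : ℝ), fun t => by
      show (1 : ℝ) ≤ ((Nat.find t.2 : ℕ) : ℝ)
      exact_mod_cast (Nat.find_spec t.2).1, ?_, ?_⟩
  · intro ε hε
    obtain ⟨C, hC⟩ := hc ε hε
    refine ⟨C, fun B hB => ?_⟩
    obtain ⟨h1, h2⟩ := hC B hB
    have hsub : Subtype.val '' {t : {p : K // ∃ m : ℕ, 1 ≤ m ∧ p ∈ V (m : ℝ)} |
        True ∧ (Nat.find t.2 : ℝ) ≤ B} ⊆ V B := by
      rintro _ ⟨t, ⟨-, ht⟩, rfl⟩
      exact hmono _ _ ht (Nat.find_spec t.2).2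
    have hinj : Set.InjOn Subtype.val {t : {p : K // ∃ m : ℕ, 1 ≤ m ∧ p ∈ V (m : ℝ)} |
        True ∧ (Nat.find t.2 : ℝ) ≤ B} := Subtype.val_injective.injOn
    refine ⟨Set.Finite.of_finite_image (h1.subset hsub) hinj, ?_⟩
    rw [← hinj.ncard_image]
    exact le_trans (by exact_mod_cast Set.ncard_le_ncard hsub h1) h2
  · intro h hh p hp
    have h1 : 1 ≤ Real.exp h := Real.one_le_exp hh
    have h2 : (1 : ℕ) ≤ ⌈Real.exp h⌉₊ := by
      rw [Nat.one_le_ceil_iff]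
      exact Real.exp_pos h
    have h3 : p ∈ V ((⌈Real.exp h⌉₊ : ℕ) : ℝ) := hmono _ _ (Nat.le_ceil _) hp
    refine ⟨⟨p, ⌈Real.exp h⌉₊, h2, h3⟩, rfl, ?_⟩
    have h4 : Nat.find (⟨⌈Real.exp h⌉₊, h2, h3⟩ : ∃ m : ℕ, 1 ≤ m ∧ p ∈ V (m : ℝ)) ≤
        ⌈Real.exp h⌉₊ := Nat.find_min' _ ⟨h2, h3⟩
    have h5 : ((⌈Real.exp h⌉₊ : ℕ) : ℝ) < Real.exp h + 1 := Nat.ceil_lt_add_one (by linarith)
    have h6 : ((Nat.find (⟨⌈Real.exp h⌉₊, h2, h3⟩ : ∃ m : ℕ, 1 ≤ m ∧ p ∈ V (m : ℝ)) : ℕ) : ℝ) ≤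
        ((⌈Real.exp h⌉₊ : ℕ) : ℝ) := by exact_mod_cast h4
    show ((Nat.find (⟨⌈Real.exp h⌉₊, h2, h3⟩ : ∃ m : ℕ, 1 ≤ m ∧ p ∈ V (m : ℝ)) : ℕ) : ℝ) ≤
      2 * Real.exp h
    linarith

/-- from the heights of `model` to `Close` -/
theorem close_finite {V : ℝ → Set K} (hmono : ∀ B B' : ℝ, B ≤ B' → V B ⊆ V B') {s : ℝ}
    (hc : Counted V s) {φ : K → X} {ξ : X} {σ : ℝ} (hσ : 0 < σ) {T : Type} {ι : T → K} {H : T → ℝ}
    (hH : ∀ t, 1 ≤ H t)
    (hι : ∀ h : ℝ, 0 ≤ h → ∀ p ∈ V (Real.exp h), ∃ t : T, ι t = p ∧ H t ≤ 2 * Real.exp h)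
    (hf : ∀ A : ℝ, {t | dist (φ (ι t)) ξ ≤ A * H t ^ (-σ) ∧ True}.Finite) (M : ℝ) :
    (Close V φ ξ σ M).Finite := by
  obtain ⟨M₁, hM₁⟩ := hc 1 one_pos
  have h1 := (hM₁ 1 le_rfl).1
  refine (h1.union ((hf (max M 0 * 2 ^ σ)).image ι)).subset ?_
  rintro p ⟨h, hp, hd⟩
  by_cases hh : 0 ≤ h
  · right
    obtain ⟨t, rfl, ht⟩ := hι h hh p hp
    refine ⟨t, ⟨?_, trivial⟩, rfl⟩
    have hHt := hH t
    have h2 : H t / 2 ≤ Real.exp h := by linarith
    have h3 : Real.exp (-(σ * h)) = Real.exp h ^ (-σ) := by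
      rw [← Real.exp_mul]
      congr 1
      ring
    have h4 : Real.exp h ^ (-σ) ≤ (H t / 2) ^ (-σ) :=
      Real.rpow_le_rpow_of_nonpos (by linarith) h2 (by linarith)
    have h5 : (H t / 2) ^ (-σ) = 2 ^ σ * H t ^ (-σ) := by
      rw [Real.div_rpow (by linarith) (by norm_num), Real.rpow_neg (by norm_num : (0 : ℝ) ≤ 2),
        div_inv_eq_mul, mul_comm]
    calc dist (φ (ι t)) ξ ≤ M * Real.exp (-(σ * h)) := hd
      _ ≤ max M 0 * Real.exp (-(σ * h)) :=
          mul_le_mul_of_nonneg_right (le_max_left _ _) (Real.exp_pos _).le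
      _ ≤ max M 0 * (2 ^ σ * H t ^ (-σ)) := by
          refine mul_le_mul_of_nonneg_left ?_ (le_max_right _ _)
          rw [h3, ← h5]
          exact h4
      _ = max M 0 * 2 ^ σ * H t ^ (-σ) := by ring
  · left
    refine hmono _ _ ?_ hp
    rw [← Real.exp_zero]
    exact Real.exp_le_exp.2 (le_of_lt (not_le.1 hh))

theorem family_dim (V : ℝ → Set K) (hmono : ∀ B B' : ℝ, B ≤ B' → V B ⊆ V B') {s σ : ℝ}
    (hs : 0 ≤ s) (hσ : 0 < σ) (hc : Counted V s) (φ : K → X) :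
    ∃ N : Set X, dimH N ≤ ENNReal.ofReal (s / σ) ∧ ∀ ξ : X, ξ ∉ N → ∀ M : ℝ,
      (Close V φ ξ σ M).Finite := by
  obtain ⟨T, _, ι, H, hH, hcount, hι⟩ := model V hmono hc
  obtain ⟨N, hN, hgood⟩ := Pool.Agent.R559.NP.near_dim (Bad := fun _ : T => True) hH hs hσ hcount
    (fun t => φ (ι t))
  exact ⟨N, hN, fun ξ hξ M => close_finite hmono hc hσ hH hι (hgood ξ hξ) M⟩

theorem family_ae [MeasurableSpace X] (μ : Measure X) {C₀ m : ℝ}
    (hμ : ∀ (x : X) (r : ℝ), 0 < r → μ (Metric.closedBall x r) ≤ ENNReal.ofReal (C₀ * r ^ m))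
    (V : ℝ → Set K) (hmono : ∀ B B' : ℝ, B ≤ B' → V B ⊆ V B') {s σ : ℝ}
    (hs : 0 ≤ s) (hσ : 0 < σ) (hsm : s < σ * m) (hc : Counted V s) (φ : K → X) :
    ∀ᵐ ξ ∂μ, ∀ M : ℝ, (Close V φ ξ σ M).Finite := by
  obtain ⟨T, _, ι, H, hH, hcount, hι⟩ := model V hmono hc
  have h := Pool.Agent.R559.NP.near_ae (Bad := fun _ : T => True) μ hμ hH hs hsm hcount
    (fun t => φ (ι t))
  filter_upwards [h] with ξ hξ M
  exact close_finite hmono hc hσ hH hι hξ M

end Families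

/-! ### The violators -/

theorem violators_mono (n : ℕ) {κ c c' B B' : ℝ} (hc : c' ≤ c) (hB : B ≤ B') (hB0 : 0 < B) :
    Violators n κ c B ⊆ Violators n κ c' B' := by
  rintro p ⟨i, E, τ, h1, h2, h3, h4, h5, h6⟩
  exact ⟨i, E, τ, h1, h2, h3, h4, h5.trans (Real.log_le_log hB0 hB), by linarith⟩

/-- the violators, for all real bounds -/
def VV (n : ℕ) (κ c : ℝ) (B : ℝ) : Set Pairs := if 0 < B then Violators n κ c B else ∅

theorem vv_mono (n : ℕ) (κ c : ℝ) (B B' : ℝ) (h : B ≤ B') : VV n κ c B ⊆ VV n κ c B' := by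
  unfold VV
  by_cases hB : 0 < B
  · rw [if_pos hB, if_pos (lt_of_lt_of_le hB h)]
    exact violators_mono n le_rfl h hB
  · rw [if_neg hB]
    exact Set.empty_subset _

theorem near_sub {X : Type} [MetricSpace X] (φ : Pairs → X) (ξ : X) (n : ℕ) {κ c c' σ M : ℝ}
    (hc : c' ≤ c) : Near φ ξ n κ c σ M ⊆ Close (VV n κ c') φ ξ σ M := by
  rintro p ⟨i, E, τ, h1, h2, h3, h4, h5, h6⟩
  refine ⟨(n : ℝ) * faltings (E.c₄ ^ 3 / E.Δ) τ, ?_, h6⟩
  unfold VV
  rw [if_pos (Real.exp_pos _)]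
  exact ⟨i, E, τ, h1, h2, h3, h4, by rw [Real.log_exp], by linarith⟩

/-- **Theorem.** There are `a n`, with `a 1 = 5 / 2`, `a n ≤ max (5 / 2) (15 / 8 + expo n / 2)` for
`n ≥ 2` and `a n = O(log ^ 2 n)`, such that for every metric space `X`, every map `φ` from the pairs
`(L, j)` to `X` and all `n ≥ 1`:
(A) For all `κ, σ > 0` and all `ξ` outside a set of Hausdorff dimension at most `a n / (κ σ)` the
inequality `h_F(A) ≤ κ log N + c` holds, for every `c`, for all the Weil restrictions `A` of degree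
`n` with `dist (φ (L, j)) ξ ≤ M exp (-σ h_F(A))`, with the exception of finitely many `(L, j)`.
(B) If `μ` is a measure such that balls of radius `r` have measure at most `C₀ r ^ m` the same is
true for `μ`-almost all `ξ` if `κ σ m > a n`.
(C) There is a set of Hausdorff dimension zero such that for all `ξ` outside it, all `n ≥ 1` and all
`σ > 0` there is a slope `κ` with this property. -/
theorem result : ∃ a : ℕ → ℝ,
    (∀ c : ℝ, 1 / (16 * (Real.log 2) ^ 2) < c →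
      ∀ᶠ n : ℕ in atTop, a n ≤ c * (Real.log n) ^ 2) ∧
    a 1 = 5 / 2 ∧ (∀ n : ℕ, 2 ≤ n → a n ≤ max (5 / 2) (15 / 8 + expo n / 2)) ∧
    ∀ (X : Type) [MetricSpace X] (φ : Pairs → X),
      (∀ n : ℕ, 1 ≤ n → ∀ κ σ : ℝ, 0 < κ → 0 < σ →
        ∃ N : Set X, dimH N ≤ ENNReal.ofReal (a n / (κ * σ)) ∧
          ∀ ξ : X, ξ ∉ N → ∀ c M : ℝ, (Near φ ξ n κ c σ M).Finite) ∧
      (∀ (_ : MeasurableSpace X) (μ : Measure X) (C₀ m : ℝ),
        (∀ (x : X) (r : ℝ), 0 < r → μ (Metric.closedBall x r) ≤ ENNReal.ofReal (C₀ * r ^ m)) →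
        ∀ n : ℕ, 1 ≤ n → ∀ κ σ : ℝ, 0 < κ → 0 < σ → a n < κ * σ * m →
          ∀ᵐ ξ ∂μ, ∀ c M : ℝ, (Near φ ξ n κ c σ M).Finite) ∧
      ∃ N : Set X, dimH N = 0 ∧ ∀ ξ : X, ξ ∉ N → ∀ n : ℕ, 1 ≤ n → ∀ σ : ℝ, 0 < σ →
        ∃ κ : ℝ, 0 < κ ∧ ∀ c M : ℝ, (Near φ ξ n κ c σ M).Finite := by
  obtain ⟨a, ha1, ha2, ha3, ha4⟩ := AllEllipticCurves.result.1
  -- the count
  have hcnt : ∀ n : ℕ, 1 ≤ n → ∀ κ : ℝ, 0 < κ → ∀ c : ℝ,
      Counted (VV n κ c) (max (a n) 0 / κ) := by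
    intro n hn κ hκ c δ hδ
    obtain ⟨M, hM⟩ := ha4 n hn κ c δ hκ hδ
    refine ⟨max M 0, fun B hB => ?_⟩
    unfold VV
    rw [if_pos (by linarith)]
    obtain ⟨h1, h2⟩ := hM B hB
    refine ⟨h1, h2.trans ?_⟩
    calc M * B ^ (a n / κ + δ) ≤ max M 0 * B ^ (a n / κ + δ) :=
          mul_le_mul_of_nonneg_right (le_max_left _ _) (Real.rpow_nonneg (by linarith) _)
      _ ≤ max M 0 * B ^ (max (a n) 0 / κ + δ) := by
          refine mul_le_mul_of_nonneg_left (Real.rpow_le_rpow_of_exponent_le hB ?_)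
            (le_max_right _ _)
          have := div_le_div_of_nonneg_right (le_max_left (a n) 0) hκ.le
          linarith
  refine ⟨fun n => max (a n) 0, fun c hc => ?_, ?_, fun n hn => ?_, fun X _ φ => ?_⟩
  · have hc0 : 0 < c := lt_trans (by positivity) hc
    filter_upwards [ha1 c hc] with n hn
    exact max_le hn (by positivity)
  · show max (a 1) 0 = 5 / 2
    rw [ha2]
    norm_num
  · exact max_le (ha3 n hn) (le_trans (by norm_num) (le_max_left _ _))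
  have hA : ∀ n : ℕ, 1 ≤ n → ∀ κ σ : ℝ, 0 < κ → 0 < σ →
      ∃ N : Set X, dimH N ≤ ENNReal.ofReal (max (a n) 0 / (κ * σ)) ∧
        ∀ ξ : X, ξ ∉ N → ∀ c M : ℝ, (Near φ ξ n κ c σ M).Finite := by
    intro n hn κ σ hκ hσ
    have h : ∀ m : ℕ, ∃ N : Set X, dimH N ≤ ENNReal.ofReal (max (a n) 0 / κ / σ) ∧
        ∀ ξ : X, ξ ∉ N → ∀ M : ℝ, (Close (VV n κ (-(m : ℝ))) φ ξ σ M).Finite := fun m =>
      family_dim _ (vv_mono n κ _) (div_nonneg (le_max_right _ _) hκ.le) hσ (hcnt n hn κ hκ _) φ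
    choose N hN hgood using h
    refine ⟨⋃ m, N m, ?_, fun ξ hξ c M => ?_⟩
    · rw [dimH_iUnion, ← div_div]
      exact iSup_le hN
    · obtain ⟨m, hm⟩ := exists_nat_ge (-c)
      rw [Set.mem_iUnion, not_exists] at hξ
      exact (hgood m ξ (hξ m) M).subset (near_sub φ ξ n (by linarith))
  refine ⟨hA, ?_, ?_⟩
  · intro _ μ C₀ m hμ n hn κ σ hκ hσ hlt
    have h : ∀ k : ℕ, ∀ᵐ ξ ∂μ, ∀ M : ℝ, (Close (VV n κ (-(k : ℝ))) φ ξ σ M).Finite := fun k =>
      family_ae μ hμ _ (vv_mono n κ _) (div_nonneg (le_max_right _ _) hκ.le) hσ (by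
        rw [div_lt_iff₀ hκ]
        have e : σ * m * κ = κ * σ * m := by ring
        rw [e]
        exact hlt) (hcnt n hn κ hκ _) φ
    filter_upwards [ae_all_iff.2 h] with ξ hξ c M
    obtain ⟨k, hk⟩ := exists_nat_ge (-c)
    exact (hξ k M).subset (near_sub φ ξ n (by linarith))
  · have h : ∀ n k j : ℕ, ∃ N : Set X,
        dimH N ≤ ENNReal.ofReal (max (a (n + 1)) 0 / (((j : ℝ) + 1) * (1 / ((k : ℝ) + 1)))) ∧
        ∀ ξ : X, ξ ∉ N → ∀ c M : ℝ,
          (Near φ ξ (n + 1) ((j : ℝ) + 1) c (1 / ((k : ℝ) + 1)) M).Finite :=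
      fun n k j => hA (n + 1) (by omega) _ _ (by positivity) (by positivity)
    choose N hN hgood using h
    refine ⟨⋃ n, ⋃ k, ⋂ j, N n k j, ?_, fun ξ hξ n hn σ hσ => ?_⟩
    · rw [dimH_iUnion, ENNReal.iSup_eq_zero]
      intro n
      rw [dimH_iUnion, ENNReal.iSup_eq_zero]
      intro k
      rw [← nonpos_iff_eq_zero]
      have hl : Tendsto (fun j : ℕ => ENNReal.ofReal
          (max (a (n + 1)) 0 / (((j : ℝ) + 1) * (1 / ((k : ℝ) + 1))))) atTop (𝓝 0) := by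
        rw [← ENNReal.ofReal_zero]
        apply ENNReal.tendsto_ofReal
        have h5 := (tendsto_one_div_add_atTop_nhds_zero_nat (𝕜 := ℝ)).const_mul
          (max (a (n + 1)) 0 * ((k : ℝ) + 1))
        rw [mul_zero] at h5
        refine h5.congr fun j => ?_
        field_simp
      exact ge_of_tendsto' hl fun j => (dimH_mono (Set.iInter_subset _ j)).trans (hN n k j)
    · obtain ⟨n, rfl⟩ : ∃ n', n = n' + 1 := ⟨n - 1, by omega⟩
      obtain ⟨k, hk⟩ := exists_nat_ge (1 / σ)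
      have hk' : 1 / ((k : ℝ) + 1) ≤ σ := by
        rw [div_le_iff₀ (by positivity)]
        rw [div_le_iff₀ hσ] at hk
        nlinarith
      simp only [Set.mem_iUnion, not_exists] at hξ
      have h2 := hξ n k
      rw [Set.mem_iInter] at h2
      push Not at h2
      obtain ⟨j, hj⟩ := h2
      refine ⟨(j : ℝ) + 1, by positivity, fun c M => ?_⟩
      obtain ⟨M₁, hM₁⟩ := hcnt (n + 1) (by omega) ((j : ℝ) + 1) (by positivity) c 1 one_pos
      refine ((hM₁ 1 le_rfl).1.union (hgood n k j ξ hj c (max M 0))).subset ?_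
      rintro p ⟨i, E, τ, e1, e2, e3, e4, e5, e6⟩
      by_cases hh : 0 ≤ ((n + 1 : ℕ) : ℝ) * faltings (E.c₄ ^ 3 / E.Δ) τ
      · right
        refine ⟨i, E, τ, e1, e2, e3, e4, e5, e6.trans ?_⟩
        calc M * Real.exp (-(σ * (((n + 1 : ℕ) : ℝ) * faltings (E.c₄ ^ 3 / E.Δ) τ))) ≤
            max M 0 * Real.exp (-(σ * (((n + 1 : ℕ) : ℝ) * faltings (E.c₄ ^ 3 / E.Δ) τ))) :=
              mul_le_mul_of_nonneg_right (le_max_left _ _) (Real.exp_pos _).le
          _ ≤ max M 0 * Real.exp (-(1 / ((k : ℝ) + 1) *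
              (((n + 1 : ℕ) : ℝ) * faltings (E.c₄ ^ 3 / E.Δ) τ))) := by
              refine mul_le_mul_of_nonneg_left ?_ (le_max_right _ _)
              rw [Real.exp_le_exp, neg_le_neg_iff]
              exact mul_le_mul_of_nonneg_right hk' hh
      · left
        unfold VV
        rw [if_pos one_pos]
        exact ⟨i, E, τ, e1, e2, e3, e4, by
          rw [Real.log_one]
          exact le_of_lt (not_le.1 hh), e5⟩

end Pool.Agent.Results.MP_c59389_nt.ViolatorsNearAPointH38
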